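import Pool.Agent.U243.DB.Stm

/-!
# VARV: the total variation of the density and the function `V`
-/

set_option autoImplicit false

open MeasureTheory Set
open scoped ENNReal NNReal ContDiff Convolution

namespace Pool.Agent.U875.DB

open Pool.Agent.U243.DB

/-- the real scaled kernel -/
noncomputable def kap (η : ℂ → ℝ) (s : ℝ) (z : ℂ) : ℝ := s⁻¹ ^ 2 * η (s⁻¹ • z)

theorem kap_contDiff {η : ℂ → ℝ} (h : ContDiff ℝ ∞ η) (s : ℝ) : ContDiff ℝ ∞ (kap η s) :=
  contDiff_const.mul (h.comp (contDiff_const_smul _))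

theorem kap_compact {η : ℂ → ℝ} (h : HasCompactSupport η) {s : ℝ} (hs : 0 < s) :
    HasCompactSupport (kap η s) := by
  have h1 : HasCompactSupport (fun z : ℂ => η (s⁻¹ • z)) :=
    h.comp_smul (inv_ne_zero hs.ne')
  exact h1.mul_left

theorem density_eq (η : ℂ → ℝ) (Ω : Set ℂ) (hΩ : MeasurableSet Ω) (s : ℝ) :
    density η Ω s = (Ω.indicator (fun _ => (1 : ℝ))) ⋆[ContinuousLinearMap.mul ℝ ℝ, volume]
      (kap η s) := by
  ext z
  rw [convolution_def, density, ← integral_indicator hΩ]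
  refine integral_congr_ae (Filter.Eventually.of_forall fun w => ?_)
  by_cases hw : w ∈ Ω <;> simp [hw, kap]

theorem loc_int (Ω : Set ℂ) (hΩ : MeasurableSet Ω) :
    LocallyIntegrable (Ω.indicator (fun _ => (1 : ℝ))) volume :=
  (locallyIntegrable_const (1 : ℝ)).indicator hΩ

theorem hasFDerivAt_density (η : ℂ → ℝ) (Ω : Set ℂ) (s : ℝ) (h : IsMollifier η)
    (hΩ : MeasurableSet Ω) (hs : 0 < s) (z : ℂ) :
    HasFDerivAt (density η Ω s) (((Ω.indicator (fun _ => (1 : ℝ)))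
      ⋆[(ContinuousLinearMap.mul ℝ ℝ).precompR ℂ, volume] fderiv ℝ (kap η s)) z) z := by
  rw [density_eq η Ω hΩ s]
  exact (kap_compact h.compact hs).hasFDerivAt_convolution_right _ (loc_int Ω hΩ)
    ((kap_contDiff h.smooth s).of_le (by exact_mod_cast le_top)) z

theorem fderiv_density_apply (η : ℂ → ℝ) (Ω : Set ℂ) (s : ℝ) (h : IsMollifier η)
    (hΩ : MeasurableSet Ω) (hs : 0 < s) (z v : ℂ) :
    Integrable (fun w => Ω.indicator (fun w => fderiv ℝ (kap η s) (z - w) v) w) volume ∧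
    fderiv ℝ (density η Ω s) z v = ∫ w in Ω, fderiv ℝ (kap η s) (z - w) v := by
  have hc : ContDiff ℝ ∞ (kap η s) := kap_contDiff h.smooth s
  have hcf : Continuous (fderiv ℝ (kap η s)) := hc.continuous_fderiv (by simp)
  have hcs : HasCompactSupport (fderiv ℝ (kap η s)) := (kap_compact h.compact hs).fderiv ℝ
  have he : ConvolutionExistsAt (Ω.indicator (fun _ => (1 : ℝ))) (fderiv ℝ (kap η s)) z
      ((ContinuousLinearMap.mul ℝ ℝ).precompR ℂ) volume :=
    hcs.convolutionExists_right _ (loc_int Ω hΩ) hcf z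
  have hint : Integrable (fun w => Ω.indicator (fun w => fderiv ℝ (kap η s) (z - w)) w) volume := by
    refine he.congr (Filter.Eventually.of_forall fun w => ?_)
    ext u
    by_cases hw : w ∈ Ω <;> simp [hw, ContinuousLinearMap.precompR_apply]
  constructor
  · have := hint.apply_continuousLinearMap v
    refine this.congr (Filter.Eventually.of_forall fun w => ?_)
    by_cases hw : w ∈ Ω <;> simp [hw]
  · rw [(hasFDerivAt_density η Ω s h hΩ hs z).fderiv, convolution_def]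
    have e : ∀ w, ((ContinuousLinearMap.mul ℝ ℝ).precompR ℂ) (Ω.indicator (fun _ => (1 : ℝ)) w)
        (fderiv ℝ (kap η s) (z - w)) = Ω.indicator (fun w => fderiv ℝ (kap η s) (z - w)) w := by
      intro w
      ext u
      by_cases hw : w ∈ Ω <;> simp [hw, ContinuousLinearMap.precompR_apply]
    simp_rw [e]
    rw [ContinuousLinearMap.integral_apply hint, ← integral_indicator hΩ]
    refine integral_congr_ae (Filter.Eventually.of_forall fun w => ?_)
    by_cases hw : w ∈ Ω <;> simp [hw]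

theorem sc_eq (η : ℂ → ℝ) (s : ℝ) : sc (fun z => (η z : ℂ)) s = fun z => ((kap η s z : ℝ) : ℂ) := by
  ext z
  simp [sc, kap]

theorem dbar_sc (η : ℂ → ℝ) (h : ContDiff ℝ ∞ η) (s : ℝ) (u : ℂ) :
    dbar (sc (fun z => (η z : ℂ)) s) u =
      (1 / 2) * (((fderiv ℝ (kap η s) u 1 : ℝ) : ℂ) +
        Complex.I * ((fderiv ℝ (kap η s) u Complex.I : ℝ) : ℂ)) := by
  have hd : HasFDerivAt (kap η s) (fderiv ℝ (kap η s) u) u :=
    ((kap_contDiff h s).differentiable (by simp) u).hasFDerivAt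
  have h2 : HasFDerivAt (fun z => ((kap η s z : ℝ) : ℂ))
      (Complex.ofRealCLM.comp (fderiv ℝ (kap η s) u)) u :=
    Complex.ofRealCLM.hasFDerivAt.comp u hd
  rw [sc_eq, dbar, h2.fderiv]
  simp

theorem U_eq (η : ℂ → ℝ) (Ω : Set ℂ) (s : ℝ) (h : IsMollifier η)
    (hΩ : MeasurableSet Ω) (hs : 0 < s) (z : ℂ) :
    U (fun z => (η z : ℂ)) Ω s z = (1 / 2) * (((fderiv ℝ (density η Ω s) z 1 : ℝ) : ℂ) +
        Complex.I * ((fderiv ℝ (density η Ω s) z Complex.I : ℝ) : ℂ)) := by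
  obtain ⟨i1, e1⟩ := fderiv_density_apply η Ω s h hΩ hs z 1
  obtain ⟨i2, e2⟩ := fderiv_density_apply η Ω s h hΩ hs z Complex.I
  rw [integrable_indicator_iff hΩ] at i1 i2
  rw [U, e1, e2]
  simp_rw [dbar_sc η h.smooth s]
  rw [integral_const_mul, integral_add, integral_const_mul, integral_complex_ofReal,
    integral_complex_ofReal]
  · exact i1.ofReal
  · exact i2.ofReal.const_mul _

theorem bounds (L : ℂ →L[ℝ] ℝ) :
    ‖(1 / 2 : ℂ) * (((L 1 : ℝ) : ℂ) + Complex.I * ((L Complex.I : ℝ) : ℂ))‖ ≤ ‖L‖ ∧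
    ‖L‖ ≤ 4 * ‖(1 / 2 : ℂ) * (((L 1 : ℝ) : ℂ) + Complex.I * ((L Complex.I : ℝ) : ℂ))‖ := by
  set a := L 1
  set b := L Complex.I
  have ha : |a| ≤ ‖L‖ := by simpa using L.le_opNorm 1
  have hb : |b| ≤ ‖L‖ := by simpa using L.le_opNorm Complex.I
  have hn : ‖(1 / 2 : ℂ) * ((a : ℂ) + Complex.I * (b : ℂ))‖ =
      (1 / 2) * ‖(a : ℂ) + Complex.I * (b : ℂ)‖ := by
    rw [norm_mul]; norm_num
  rw [hn]
  constructor
  · have : ‖(a : ℂ) + Complex.I * (b : ℂ)‖ ≤ |a| + |b| := by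
      refine (norm_add_le _ _).trans ?_
      simp
    linarith
  · have h1 : |a| ≤ ‖(a : ℂ) + Complex.I * (b : ℂ)‖ := by
      have := Complex.abs_re_le_norm ((a : ℂ) + Complex.I * (b : ℂ))
      simpa using this
    have h2 : |b| ≤ ‖(a : ℂ) + Complex.I * (b : ℂ)‖ := by
      have := Complex.abs_im_le_norm ((a : ℂ) + Complex.I * (b : ℂ))
      simpa using this
    refine L.opNorm_le_bound (by positivity) fun v => ?_
    have hv : v = v.re • (1 : ℂ) + v.im • Complex.I := by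
      apply Complex.ext <;> simp
    have e : L v = v.re * a + v.im * b := by
      conv_lhs => rw [hv]
      rw [map_add, map_smul, map_smul]
      simp [a, b]
    rw [e, Real.norm_eq_abs]
    have hr := Complex.abs_re_le_norm v
    have hi := Complex.abs_im_le_norm v
    calc |v.re * a + v.im * b| ≤ |v.re * a| + |v.im * b| := abs_add_le _ _
      _ = |v.re| * |a| + |v.im| * |b| := by rw [abs_mul, abs_mul]
      _ ≤ ‖v‖ * ‖(a : ℂ) + Complex.I * (b : ℂ)‖ + ‖v‖ * ‖(a : ℂ) + Complex.I * (b : ℂ)‖ := by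
        gcongr
      _ = 4 * (1 / 2 * ‖(a : ℂ) + Complex.I * (b : ℂ)‖) * ‖v‖ := by ring

theorem t_VARV : S_VARV := by
  intro η Ω s h hΩ hs
  constructor
  · refine lintegral_mono fun z => ?_
    rw [U_eq η Ω s h hΩ hs z]
    exact enorm_le_iff_norm_le.2 (bounds _).1
  · rw [V, ← lintegral_const_mul' _ _ (by norm_num)]
    refine lintegral_mono fun z => ?_
    rw [U_eq η Ω s h hΩ hs z]
    have := (bounds (fderiv ℝ (density η Ω s) z)).2
    rw [← ofReal_norm, ← ofReal_norm,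
      show (4 : ℝ≥0∞) = ENNReal.ofReal 4 by norm_num, ← ENNReal.ofReal_mul (by norm_num)]
    exact ENNReal.ofReal_le_ofReal this

end Pool.Agent.U875.DB
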